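import Mathlib

/-!
# A function whose difference quotients avoid a sequence of windows, with arbitrarily fast parameters

Generalisation of the construction of Pool/Agent/H316R3/NL/Basic.lean: arbitrary radii (given by a
function `g`), arbitrary bounded intervals.
-/

set_option autoImplicit false

open MeasureTheory Set Filter Topology
open scoped ENNReal

namespace Pool.Agent.Y852.NL

/-- the parameters: the interval `(c, d)`, a bound `L` of its length, and the function `g` which gives
the radii -/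
structure Pm where
  c : ℝ
  d : ℝ
  L : ℝ
  s : ℝ
  g : ℕ → ℝ → ℝ
  cd : c < d
  L1 : 1 ≤ L
  dL : d - c ≤ L
  s0 : 0 < s
  s1 : s ≤ 1 / 8
  s2 : s ≤ (d - c) / 8
  g0 : ∀ k t, 0 < g k t
  g1 : ∀ k t, 2 * 3 ^ k * g k t ≤ s * (1 / 2) ^ k

variable (P : Pm)

/-- the values -/
noncomputable def U : ℕ → ℝ
  | 0 => 4
  | k + 1 => 4 * P.L * U k / P.g k (U k)

/-- the radii -/
noncomputable def r (k : ℕ) : ℝ := P.g k (U P k)

open Classical in
/-- the jump points -/
noncomputable def B : ℕ → Finset ℝ
  | 0 => {(P.c + P.d) / 2}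
  | k + 1 => (B k ∪ (B k).image (fun b => b + r P k)) ∪ (B k).image (fun b => b - r P k)

/-- the neighbourhoods of the jump points -/
def G (k : ℕ) : Set ℝ := ⋃ b ∈ B P k, Ioo (b - r P k) (b + r P k)

open Classical in
/-- the approximating step functions -/
noncomputable def uk : ℕ → ℝ → ℝ
  | 0 => fun x => if x < (P.c + P.d) / 2 then 0 else 4
  | k + 1 => fun x => if x ∈ G P k then U P (k + 1) else uk k x

/-- the function -/
noncomputable def u (x : ℝ) : ℝ := (⨆ k, ENNReal.ofReal (uk P k x)).toReal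

lemma r_pos (k : ℕ) : 0 < r P k := P.g0 _ _

lemma r_bound (k : ℕ) : 2 * 3 ^ k * r P k ≤ P.s * (1 / 2) ^ k := P.g1 _ _

lemma r_le_one (k : ℕ) : r P k ≤ 1 := by
  have h1 := r_bound P k
  have h2 : P.s * (1 / 2) ^ k ≤ 1 / 8 * 1 := by
    have := P.s1
    have h3 : ((1:ℝ) / 2) ^ k ≤ 1 := pow_le_one₀ (by norm_num) (by norm_num)
    have h4 := P.s0
    gcongr
  have h5 : (1:ℝ) ≤ 3 ^ k := one_le_pow₀ (by norm_num)
  have h6 := r_pos P k
  nlinarith

lemma L0 : 0 < P.L := lt_of_lt_of_le one_pos P.L1

lemma U_succ_eq (k : ℕ) : U P (k + 1) = 4 * P.L * U P k / r P k := rfl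

lemma U_pos (k : ℕ) : 0 < U P k := by
  induction k with
  | zero => simp [U]
  | succ k ih =>
    rw [U_succ_eq]
    have := r_pos P k
    have := L0 P
    positivity

lemma U_succ (k : ℕ) : 4 * U P k ≤ U P (k + 1) := by
  rw [U_succ_eq, le_div_iff₀ (r_pos P k)]
  have h1 := r_le_one P k
  have h2 := r_pos P k
  have h3 := U_pos P k
  have h4 := P.L1
  calc 4 * U P k * r P k ≤ 4 * U P k * 1 := by gcongr
    _ = 4 * 1 * U P k := by ring
    _ ≤ 4 * P.L * U P k := by gcongr

lemma U_ge (k : ℕ) : (4 : ℝ) ^ (k + 1) ≤ U P k := by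
  induction k with
  | zero => simp [U]
  | succ k ih =>
    calc (4 : ℝ) ^ (k + 1 + 1) = 4 * 4 ^ (k + 1) := by ring
      _ ≤ 4 * U P k := by linarith
      _ ≤ _ := U_succ P k

lemma U_four (k : ℕ) : 4 ≤ U P k := by
  have h := U_ge P k
  have h1 : (4 : ℝ) ^ 1 ≤ 4 ^ (k + 1) := pow_le_pow_right₀ (by norm_num) (by omega)
  linarith

lemma U_mono : Monotone (U P) := monotone_nat_of_le_succ fun k => by
  linarith [U_succ P k, U_pos P k]

lemma uk_nonneg (k : ℕ) (x : ℝ) : 0 ≤ uk P k x := by
  induction k with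
  | zero => simp only [uk]; split_ifs <;> norm_num
  | succ k ih => simp only [uk]; split_ifs; exacts [(U_pos P _).le, ih]

lemma uk_le (k : ℕ) (x : ℝ) : uk P k x ≤ U P k := by
  induction k with
  | zero => simp only [uk, U]; split_ifs <;> norm_num
  | succ k ih =>
    simp only [uk]
    split_ifs
    · exact le_rfl
    · exact ih.trans (U_mono P (Nat.le_succ k))

lemma uk_mono_succ (k : ℕ) (x : ℝ) : uk P k x ≤ uk P (k + 1) x := by
  by_cases h : x ∈ G P k
  · simp only [uk, if_pos h]
    exact (uk_le P k x).trans (U_mono P (Nat.le_succ k))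
  · simp only [uk, if_neg h]; exact le_rfl

lemma uk_mono (x : ℝ) : Monotone (fun k => uk P k x) :=
  monotone_nat_of_le_succ fun k => uk_mono_succ P k x

lemma measurableSet_G (k : ℕ) : MeasurableSet (G P k) := by
  unfold G
  exact Finset.measurableSet_biUnion _ fun _ _ => measurableSet_Ioo

lemma measurable_uk (k : ℕ) : Measurable (uk P k) := by
  induction k with
  | zero => exact Measurable.ite measurableSet_Iio measurable_const measurable_const
  | succ k ih => exact Measurable.ite (measurableSet_G P k) measurable_const ih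

lemma measurable_u : Measurable (u P) := by
  unfold u
  exact (Measurable.iSup fun k => (measurable_uk P k).ennreal_ofReal).ennreal_toReal

lemma uk_eq_of_le {x : ℝ} {N k : ℕ} (h : ∀ j, N ≤ j → x ∉ G P j) (hk : N ≤ k) :
    uk P k x = uk P N x := by
  induction k, hk using Nat.le_induction with
  | base => rfl
  | succ k hk ih => simp only [uk, if_neg (h k hk)]; exact ih

lemma u_eq {x : ℝ} {N : ℕ} (h : ∀ j, N ≤ j → x ∉ G P j) : u P x = uk P N x := by
  unfold u
  have : (⨆ k, ENNReal.ofReal (uk P k x)) = ENNReal.ofReal (uk P N x) := by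
    apply le_antisymm
    · apply iSup_le
      intro k
      apply ENNReal.ofReal_le_ofReal
      rcases le_total N k with hk | hk
      · rw [uk_eq_of_le P h hk]
      · exact uk_mono P x hk
    · exact le_iSup (fun k => ENNReal.ofReal (uk P k x)) N
  rw [this, ENNReal.toReal_ofReal (uk_nonneg P N x)]

lemma B_subset (k : ℕ) : B P k ⊆ B P (k + 1) := by
  intro b hb
  simp only [B, Finset.mem_union]
  exact Or.inl (Or.inl hb)

/-- `uk k` is constant on intervals free of jump points. -/
lemma uk_const (k : ℕ) : ∀ x y : ℝ, x ≤ y → (∀ b ∈ B P k, ¬ (x ≤ b ∧ b ≤ y)) →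
    uk P k x = uk P k y := by
  induction k with
  | zero =>
    intro x y hxy h
    have h1 := h ((P.c + P.d) / 2) (by simp [B])
    simp only [uk]
    by_cases hx : x < (P.c + P.d) / 2
    · have hy : y < (P.c + P.d) / 2 := by
        by_contra hy
        exact h1 ⟨hx.le, not_lt.1 hy⟩
      rw [if_pos hx, if_pos hy]
    · have hy : ¬ y < (P.c + P.d) / 2 := fun hy => hx (lt_of_le_of_lt hxy hy)
      rw [if_neg hx, if_neg hy]
  | succ k ih =>
    intro x y hxy h
    have h0 := ih x y hxy (fun b hb => h b (B_subset P k hb))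
    have hG : x ∈ G P k ↔ y ∈ G P k := by
      simp only [G, mem_iUnion, mem_Ioo, exists_prop]
      constructor
      · rintro ⟨b, hb, h1, h2⟩
        refine ⟨b, hb, by linarith, ?_⟩
        by_contra h3
        refine h (b + r P k) ?_ ⟨h2.le, not_lt.1 h3⟩
        simp only [B, Finset.mem_union, Finset.mem_image]
        exact Or.inl (Or.inr ⟨b, hb, rfl⟩)
      · rintro ⟨b, hb, h1, h2⟩
        refine ⟨b, hb, ?_, by linarith⟩
        by_contra h3
        refine h (b - r P k) ?_ ⟨not_lt.1 h3, h1.le⟩
        simp only [B, Finset.mem_union, Finset.mem_image]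
        exact Or.inr ⟨b, hb, rfl⟩
    simp only [uk]
    by_cases hx : x ∈ G P k
    · rw [if_pos hx, if_pos (hG.1 hx)]
    · rw [if_neg hx, if_neg (fun hy => hx (hG.2 hy)), h0]

lemma sep_aux {k : ℕ} {x y : ℝ} (hxy : x ≤ y) (hx : x ∉ G P k) (hy : y ∉ G P k)
    (hne : uk P k x ≠ uk P k y) : 2 * r P k ≤ y - x := by
  have : ∃ b ∈ B P k, x ≤ b ∧ b ≤ y := by
    by_contra hcon
    push Not at hcon
    exact hne (uk_const P k x y hxy (fun b hb h => absurd h.2 (not_le.2 (hcon b hb h.1))))
  obtain ⟨b, hb, h1, h2⟩ := this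
  have hx' : x ≤ b - r P k := by
    by_contra hcon
    apply hx
    simp only [G, mem_iUnion, mem_Ioo, exists_prop]
    exact ⟨b, hb, not_le.1 hcon, by linarith [r_pos P k]⟩
  have hy' : b + r P k ≤ y := by
    by_contra hcon
    apply hy
    simp only [G, mem_iUnion, mem_Ioo, exists_prop]
    exact ⟨b, hb, by linarith [r_pos P k], not_le.1 hcon⟩
  linarith

lemma sep {k : ℕ} {x y : ℝ} (hx : x ∉ G P k) (hy : y ∉ G P k)
    (hne : uk P k x ≠ uk P k y) : 2 * r P k ≤ |y - x| := by
  rcases le_total x y with h | h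
  · rw [abs_of_nonneg (by linarith)]; exact sep_aux P h hx hy hne
  · rw [abs_sub_comm, abs_of_nonneg (by linarith)]; exact sep_aux P h hy hx hne.symm

/-- left end of the `k`-th window; the window is `(a k, 4 * a k)` -/
noncomputable def a (k : ℕ) : ℝ := U P k / (2 * r P k)

lemma a_eq (k : ℕ) : 4 * a P k = U P (k + 1) / (2 * P.L) := by
  have h1 := r_pos P k
  have h2 := L0 P
  unfold a
  rw [U_succ_eq]
  field_simp

lemma a_pos (k : ℕ) : 0 < a P k := div_pos (U_pos P k) (by linarith [r_pos P k])

lemma half_U_le_a (k : ℕ) : U P k / 2 ≤ a P k := by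
  unfold a
  rw [div_le_div_iff₀ (by norm_num) (by linarith [r_pos P k])]
  nlinarith [U_pos P k, r_le_one P k, r_pos P k]

lemma a_succ (k : ℕ) : 4 * a P k ≤ a P (k + 1) := by
  rw [a_eq]
  refine le_trans ?_ (half_U_le_a P _)
  have h1 := P.L1
  have h2 := U_pos P (k + 1)
  gcongr
  linarith

lemma a_mono : Monotone (a P) := monotone_nat_of_le_succ fun k => by linarith [a_succ P k, a_pos P k]

/-- the complement of the windows -/
def Z : Set ℝ := (⋃ k, Ioo (a P k) (4 * a P k))ᶜ

/-- The main dichotomy. -/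
lemma quotient {x y : ℝ} (hx : ∃ N, ∀ j, N ≤ j → x ∉ G P j) (hy : ∃ N, ∀ j, N ≤ j → y ∉ G P j)
    (hd : |y - x| ≤ P.L) (hne : u P x ≠ u P y) :
    ∃ K : ℕ, 2 * r P K ≤ |y - x| ∧ |u P y - u P x| / |y - x| ∈ Z P ∧
      (K = 0 ∨ U P K / (2 * P.L) ≤ |u P y - u P x| / |y - x|) := by
  classical
  have hL0 := L0 P
  obtain ⟨N₁, h₁⟩ := hx
  obtain ⟨N₂, h₂⟩ := hy
  have hex : ∃ K, ∀ j, K ≤ j → x ∉ G P j ∧ y ∉ G P j :=
    ⟨max N₁ N₂, fun j hj => ⟨h₁ j (le_trans (le_max_left _ _) hj), h₂ j (le_trans (le_max_right _ _) hj)⟩⟩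
  set K := Nat.find hex with hK
  have hKs : ∀ j, K ≤ j → x ∉ G P j ∧ y ∉ G P j := Nat.find_spec hex
  have hux : u P x = uk P K x := u_eq P fun j hj => (hKs j hj).1
  have huy : u P y = uk P K y := u_eq P fun j hj => (hKs j hj).2
  have hne' : uk P K x ≠ uk P K y := by rw [← hux, ← huy]; exact hne
  have hsep := sep P (hKs K le_rfl).1 (hKs K le_rfl).2 hne'
  have hpos : 0 < |y - x| := lt_of_lt_of_le (by linarith [r_pos P K]) hsep
  have hle : |u P y - u P x| / |y - x| ≤ a P K := by
    have h1 : |u P y - u P x| ≤ U P K := by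
      rw [hux, huy, abs_le]
      have := uk_nonneg P K x
      have := uk_nonneg P K y
      have := uk_le P K x
      have := uk_le P K y
      constructor <;> linarith
    unfold a
    exact div_le_div₀ (U_pos P K).le h1 (by linarith [r_pos P K]) hsep
  have hge : K = 0 ∨ U P K / (2 * P.L) ≤ |u P y - u P x| / |y - x| := by
    rcases Nat.eq_zero_or_pos K with h0 | h0
    · exact Or.inl h0
    · right
      obtain ⟨K', hK'⟩ : ∃ K', K = K' + 1 := ⟨K - 1, by omega⟩
      have hmin := Nat.find_min hex (m := K') (by omega)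
      push Not at hmin
      obtain ⟨j, hj1, hj2⟩ := hmin
      have hjK : j = K' := by
        by_contra hcon
        have := hKs j (by omega)
        exact this.2 (hj2 this.1)
      subst hjK
      have h1 : U P K / 2 ≤ |u P y - u P x| := by
        rw [hux, huy, hK']
        by_cases hxG : x ∈ G P j
        · have e1 : uk P (j + 1) x = U P (j + 1) := by simp only [uk, if_pos hxG]
          have hyG : y ∉ G P j := by
            intro hyG
            apply hne'
            rw [hK', e1]; simp only [uk, if_pos hyG]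
          have e2 : uk P (j + 1) y = uk P j y := by simp only [uk, if_neg hyG]
          rw [e1, e2, abs_sub_comm, le_abs]
          left
          linarith [uk_le P j y, U_succ P j, U_pos P j]
        · have hyG : y ∈ G P j := by
            by_contra hyG
            exact hyG (hj2 hxG)
          have e1 : uk P (j + 1) y = U P (j + 1) := by simp only [uk, if_pos hyG]
          have e2 : uk P (j + 1) x = uk P j x := by simp only [uk, if_neg hxG]
          rw [e1, e2, le_abs]
          left
          linarith [uk_le P j x, U_succ P j, U_pos P j]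
      rw [le_div_iff₀ hpos]
      have h2 := U_pos P K
      calc U P K / (2 * P.L) * |y - x| ≤ U P K / (2 * P.L) * P.L :=
            mul_le_mul_of_nonneg_left hd (by positivity)
        _ = U P K / 2 := by field_simp
        _ ≤ _ := h1
  refine ⟨K, hsep, ?_, hge⟩
  simp only [Z, mem_compl_iff, mem_iUnion, not_exists, mem_Ioo, not_and, not_lt]
  intro j hj
  rcases lt_or_ge j K with h | h
  · rcases hge with h0 | h0
    · omega
    · obtain ⟨K', hK'⟩ : ∃ K', K = K' + 1 := ⟨K - 1, by omega⟩
      have h2 : a P j ≤ a P K' := a_mono P (by omega)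
      have h3 := a_eq P K'
      rw [← hK'] at h3
      linarith
  · have h2 := a_mono P h
    linarith

end Pool.Agent.Y852.NL
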